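import Pool.Agent.Helper54.SRD.Basic

/-!
# Any two points of a connected manifold can be joined
-/

open Set Filter MeasureTheory
open scoped Manifold ContDiff Topology

noncomputable section

namespace Pool.Agent.Helper40.SRD

open Pool.Agent.Helper54.SRD

variable (E : Type*) [NormedAddCommGroup E] [NormedSpace ℝ E] [FiniteDimensional ℝ E]
variable (M : Type*) [TopologicalSpace M] [ChartedSpace E M] [IsManifold 𝓘(ℝ, E) ∞ M]

/-- Every point has a neighbourhood in which any two points can be joined. -/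
theorem local_join (hAFF : S_AFF E M) (hNMC : S_NMC E) (G : AMetric E M) (y : M) :
    ∃ N ∈ 𝓝 y, ∀ p ∈ N, ∀ q ∈ N, ∃ L, Reach G p q L := by
  have hy : (ch y y : E) ∈ tgt E y := ch_mem (mem_src y)
  obtain ⟨ρ, hρ, hball⟩ := Metric.nhds_basis_closedBall.mem_iff.1 ((isOpen_tgt y).mem_nhds hy)
  haveI : ProperSpace E := FiniteDimensional.proper ℝ E
  obtain ⟨m, hm, C, hC, hb⟩ := (hNMC (tgt E y) (G.G y) (isOpen_tgt y) (G.smooth y).continuousOn
    (fun z hz => ⟨G.symm y z hz, G.pos y z hz⟩)).2 (Metric.closedBall (ch y y : E) ρ) hball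
    (isCompact_closedBall _ _)
  refine ⟨src E y ∩ (ch y : M → E) ⁻¹' Metric.ball (ch y y : E) ρ, ?_, ?_⟩
  · exact inter_mem (src_mem_nhds y)
      ((continuousAt_ch (mem_src y)).preimage_mem_nhds (Metric.ball_mem_nhds _ hρ))
  · intro p hp q hq
    refine ⟨2 * ρ * C + 1, ?_⟩
    have h := hAFF G y (ch y p : E) (ch y q : E) (2 * ρ * C + 1) (by positivity) ?_
    · rw [chi_ch hp.1, chi_ch hq.1] at h
      exact h
    · intro s hs
      have hmem : (ch y p : E) + s • ((ch y q : E) - (ch y p : E)) ∈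
          Metric.ball (ch y y : E) ρ := by
        have hc := (convex_ball (ch y y : E) ρ).add_smul_sub_mem hp.2 hq.2 hs
        exact hc
      have hcl := Metric.ball_subset_closedBall hmem
      refine ⟨hball hcl, ?_⟩
      have h1 := (hb _ hcl ((ch y q : E) - (ch y p : E))).2
      have h2 : ‖(ch y q : E) - (ch y p : E)‖ ≤ 2 * ρ := by
        have h3 := dist_triangle_right (ch y q : E) (ch y p : E) (ch y y : E)
        have h4 : dist (ch y q : E) (ch y y : E) < ρ := hq.2
        have h5 : dist (ch y p : E) (ch y y : E) < ρ := hp.2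
        rw [← dist_eq_norm]
        linarith
      have h6 : C * ‖(ch y q : E) - (ch y p : E)‖ ≤ C * (2 * ρ) :=
        mul_le_mul_of_nonneg_left h2 hC.le
      nlinarith

/-- CON: any two points of a connected manifold can be joined. -/
theorem con (hAFF : S_AFF E M) (hRCH : S_RCH E M) (hNMC : S_NMC E) : S_CON E M := by
  intro hconn G x y
  obtain ⟨hrefl, hsymm, htrans, -, -⟩ := hRCH G
  have hloc := local_join E M hAFF hNMC G
  have hopen : IsOpen {z : M | ∃ L, Reach G x z L} := by
    rw [isOpen_iff_mem_nhds]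
    rintro z ⟨L, hL⟩
    obtain ⟨N, hN, hjoin⟩ := hloc z
    refine mem_of_superset hN ?_
    intro p hp
    obtain ⟨L', hL'⟩ := hjoin z (mem_of_mem_nhds hN) p hp
    exact ⟨L + L', htrans _ _ _ _ _ hL hL'⟩
  have hclosed : IsClosed {z : M | ∃ L, Reach G x z L} := by
    rw [← isOpen_compl_iff, isOpen_iff_mem_nhds]
    intro z hz
    obtain ⟨N, hN, hjoin⟩ := hloc z
    refine mem_of_superset hN ?_
    rintro p hp ⟨L, hL⟩
    obtain ⟨L', hL'⟩ := hjoin p hp z (mem_of_mem_nhds hN)
    exact hz ⟨L + L', htrans _ _ _ _ _ hL hL'⟩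
  have huniv := IsClopen.eq_univ ⟨hclosed, hopen⟩ ⟨x, 0, hrefl x⟩
  have hy : y ∈ {z : M | ∃ L, Reach G x z L} := by
    rw [huniv]
    exact mem_univ y
  exact hy

end Pool.Agent.Helper40.SRD
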